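import Mathlib
import Pool.Agent.Y827.HN.Pat

/-!
# Two of four classes of linear forms along narrow progressions of all lengths

The coloured Maynard-Tao theorem (`Pool.Agent.Y827.HN.patRD`), with one pair of forms for all lengths.
-/

set_option autoImplicit false

namespace Pool.Agent.H40E9.CM

open Finset Filter
open Pool.Agent.Y827.HN

/-- there are many narrow progressions of every length of primes `q` for which `g.1 + g.2 q` is prime -/
def Good (g : ℤ × ℤ) : Prop := ∀ l : ℕ, ∃ C : ℕ, ∃ᶠ N : ℕ in atTop, ∃ D : ℕ, 1 ≤ D ∧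
  (D : ℝ) ≤ Real.log N ^ C ∧ (N : ℝ) / Real.log N ^ C ≤
    ({q : ℕ | q ≤ N ∧ ∀ t < l, (q + t * D).Prime ∧
      ∃ p : ℕ, p.Prime ∧ (p : ℤ) = g.1 + g.2 * ((q + t * D : ℕ) : ℤ)}.ncard : ℝ)

/-- two of four classes, one pair of forms for all lengths -/
theorem pair4 : ∃ K : ℕ, 1 ≤ K ∧ ∀ H : Fin 4 → Fin K → ℤ × ℤ,
    Function.Injective (fun x : Fin 4 × Fin K => H x.1 x.2) →
    (∀ g i, 0 < (H g i).1 ∧ IsCoprime (H g i).1 (H g i).2) →
    (∀ p : ℕ, p.Prime → p ≤ 4 * K → ∃ r : ℤ, ∀ g i, ¬ (p : ℤ) ∣ (H g i).1 * r + (H g i).2) →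
    ∃ a b : Fin 4, a < b ∧ ∃ i j : Fin K, ∀ l : ℕ, ∃ C : ℕ, ∃ᶠ N : ℕ in atTop,
      QX l C N {H a i, H b j} ∅ := by
  classical
  obtain ⟨K, hK, h⟩ := patRD 4
  refine ⟨K, hK, fun H hinj hpos hadm => ?_⟩
  have h1 := fun l => h (by norm_num) H hinj hpos hadm ∅ (by simp) l
  -- for every `l` a pair of forms
  have h2 : ∀ l : ℕ, ∃ τ : (Fin 4 × Fin 4) × (Fin K × Fin K), τ.1.1 < τ.1.2 ∧ ∃ C : ℕ,
      ∃ᶠ N : ℕ in atTop, QX l C N {H τ.1.1 τ.2.1, H τ.1.2 τ.2.2} ∅ := by
    intro l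
    obtain ⟨C, hC⟩ := h1 l
    by_contra hcon
    push Not at hcon
    have h3 : ∀ᶠ N : ℕ in atTop, ∀ τ : (Fin 4 × Fin 4) × (Fin K × Fin K), τ.1.1 < τ.1.2 →
        ¬ QX l C N {H τ.1.1 τ.2.1, H τ.1.2 τ.2.2} ∅ := by
      rw [eventually_all]
      intro τ
      by_cases hτ : τ.1.1 < τ.1.2
      · filter_upwards [hcon τ hτ C] with N hN _ using hN
      · exact Eventually.of_forall fun N h4 => absurd h4 hτ
    obtain ⟨N, ⟨S, c, hS, hall⟩, hN2⟩ := (hC.and h3).exists
    have hS2 : 1 < S.card := by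
      have h5 : (4 : ℝ) ≤ 18 / 5 * (S.card : ℝ) := by exact_mod_cast hS
      have h6 : (1 : ℝ) < S.card := by linarith
      exact_mod_cast h6
    obtain ⟨a, ha, b, hb, hab⟩ := Finset.one_lt_card.1 hS2
    have main : ∀ a ∈ S, ∀ b ∈ S, a < b → False := by
      intro a ha b hb hlt
      refine hN2 ((a, b), (c a, c b)) hlt ?_
      have h7 := hall {H a (c a), H b (c b)} (by
        intro f hf
        rw [mem_insert, mem_singleton] at hf
        rcases hf with rfl | rfl
        · exact mem_image_of_mem _ ha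
        · exact mem_image_of_mem _ hb)
      exact QX_anti (Subset.refl _) (Finset.empty_subset _) h7
    rcases lt_or_gt_of_ne hab with h8 | h8
    · exact main a ha b hb h8
    · exact main b hb a ha h8
  choose τ hτ1 hτ2 using h2
  obtain ⟨T, hT⟩ := Finite.exists_infinite_fiber τ
  have hTinf : (τ ⁻¹' {T}).Infinite := Set.infinite_coe_iff.1 hT
  obtain ⟨l0, hl0⟩ := hTinf.nonempty
  have hl0' : τ l0 = T := hl0
  refine ⟨T.1.1, T.1.2, by rw [← hl0']; exact hτ1 l0, T.2.1, T.2.2, fun l => ?_⟩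
  obtain ⟨l', hl', hll⟩ := hTinf.exists_gt l
  have hl'' : τ l' = T := hl'
  obtain ⟨C, hC⟩ := hτ2 l'
  rw [hl''] at hC
  exact ⟨C, hC.mono fun N hN => QX_len hll.le hN⟩

theorem log_ev (a : ℝ) : ∀ᶠ N : ℕ in atTop, a ≤ Real.log N :=
  (Real.tendsto_log_atTop.comp tendsto_natCast_atTop_atTop).eventually_ge_atTop _

/-- from the integers `n` to the primes `q = α n + β` -/
theorem good_of {α β : ℤ} (hα : 0 < α) (g : ℤ × ℤ)
    (h : ∀ l : ℕ, ∃ C : ℕ, ∃ᶠ N : ℕ in atTop, QX l C N {(α, β), (g.2 * α, g.1 + g.2 * β)} ∅) :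
    Good g := by
  classical
  intro l
  obtain ⟨C, hC⟩ := h (l + 1)
  refine ⟨C + 1, ?_⟩
  obtain ⟨A, rfl⟩ : ∃ A : ℕ, α = A := ⟨α.toNat, by omega⟩
  have hA : 0 < A := by exact_mod_cast hα
  set B : ℕ := β.natAbs with hB
  have hBβ : |β| = (B : ℤ) := (Int.natCast_natAbs β).symm
  have hβ1 : -(B : ℤ) ≤ β ∧ β ≤ B := by
    have := abs_le.1 hBβ.le
    exact this
  have ht : Tendsto (fun m : ℕ => A * m + B) atTop atTop := by
    apply tendsto_atTop_mono (f := fun m : ℕ => m) _ tendsto_id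
    intro m
    have : 1 * m ≤ A * m := Nat.mul_le_mul_right _ hA
    show m ≤ A * m + B
    omega
  refine ht.frequently ?_
  refine (hC.and_eventually (((log_ev (2 * A)).and (eventually_ge_atTop 3)).and
    (eventually_ge_atTop (B + 1)))).mono ?_
  rintro N ⟨⟨d, hd1, hd2, hd3⟩, ⟨hNl, hN3⟩, hNb⟩
  have hAr : (1 : ℝ) ≤ A := by exact_mod_cast hA
  have hL1 : 1 ≤ Real.log N := by linarith
  have hNr : (0 : ℝ) < N := by exact_mod_cast (by omega : 0 < N)
  have hle : N ≤ A * N + B := by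
    have : 1 * N ≤ A * N := Nat.mul_le_mul_right _ hA
    omega
  have hll : Real.log N ≤ Real.log ((A * N + B : ℕ) : ℝ) :=
    Real.log_le_log hNr (by exact_mod_cast hle)
  have hL1' : 1 ≤ Real.log ((A * N + B : ℕ) : ℝ) := hL1.trans hll
  refine ⟨A * d, Nat.mul_pos hA hd1, ?_, ?_⟩
  · have h1 : (A : ℝ) ≤ Real.log ((A * N + B : ℕ) : ℝ) := by linarith
    have h2 : (d : ℝ) ≤ Real.log ((A * N + B : ℕ) : ℝ) ^ C :=
      hd2.trans (pow_le_pow_left₀ (by linarith) hll C)
    rw [pow_succ, mul_comm]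
    have h3 : 0 ≤ Real.log ((A * N + B : ℕ) : ℝ) ^ C := pow_nonneg (by linarith) C
    push_cast at h1 h2 h3 ⊢
    exact mul_le_mul h2 h1 (by positivity) h3
  · have h1 : ((A * N + B : ℕ) : ℝ) / Real.log ((A * N + B : ℕ) : ℝ) ^ (C + 1) ≤
        (N : ℝ) / Real.log N ^ C := by
      have h2 : ((A * N + B : ℕ) : ℝ) ≤ 2 * A * N := by
        have h3 : A * N + B ≤ 2 * A * N := by
          have : 1 * N ≤ A * N := Nat.mul_le_mul_right _ hA
          nlinarith
        exact_mod_cast h3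
      rw [div_le_div_iff₀ (by positivity) (by positivity)]
      calc ((A * N + B : ℕ) : ℝ) * Real.log N ^ C ≤ (2 * A * N) * Real.log N ^ C :=
            mul_le_mul_of_nonneg_right h2 (by positivity)
        _ = N * (Real.log N ^ C * (2 * A)) := by ring
        _ ≤ N * (Real.log ((A * N + B : ℕ) : ℝ) ^ C * Real.log ((A * N + B : ℕ) : ℝ)) := by
            apply mul_le_mul_of_nonneg_left _ hNr.le
            exact mul_le_mul (pow_le_pow_left₀ (by linarith) hll C) (hNl.trans hll) (by positivity)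
              (by positivity)
        _ = N * Real.log ((A * N + B : ℕ) : ℝ) ^ (C + 1) := by rw [pow_succ]
    refine (h1.trans hd3).trans ?_
    rw [Nat.cast_le]
    unfold cntX
    -- the injection
    rw [← Set.ncard_coe_finset]
    have hfin : {q : ℕ | q ≤ A * N + B ∧ ∀ t < l, (q + t * (A * d)).Prime ∧
        ∃ p : ℕ, p.Prime ∧ (p : ℤ) = g.1 + g.2 * ((q + t * (A * d) : ℕ) : ℤ)}.Finite :=
      (Set.finite_Iic (A * N + B)).subset fun q hq => hq.1
    refine Set.ncard_le_ncard_of_injOn (fun n : ℕ => ((A : ℤ) * n + β).toNat) ?_ ?_ hfin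
    · intro n hn
      rw [mem_coe, mem_filter, mem_Icc] at hn
      obtain ⟨⟨hn1, hn2⟩, hn3⟩ := hn
      have h0 := (hn3 0 (by omega)).1 ((A : ℤ), β) (by simp)
      simp only [Nat.zero_mul, Nat.add_zero] at h0
      have hpos : 0 ≤ (A : ℤ) * n + β := by
        by_contra hneg
        rw [Int.toNat_of_nonpos (by omega)] at h0
        exact absurd h0 Nat.not_prime_zero
      have e1 : ((((A : ℤ) * n + β).toNat : ℕ) : ℤ) = (A : ℤ) * n + β := Int.toNat_of_nonneg hpos
      refine ⟨?_, fun t ht => ?_⟩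
      · have h4 : (A : ℤ) * n ≤ A * N := by
          have : (n : ℤ) ≤ N := by exact_mod_cast hn2
          exact mul_le_mul_of_nonneg_left this (by positivity)
        have h5 : ((((A : ℤ) * n + β).toNat : ℕ) : ℤ) ≤ ((A * N + B : ℕ) : ℤ) := by
          rw [e1]; push_cast; linarith [hβ1.2]
        exact_mod_cast h5
      · have h6 := (hn3 t (by omega)).1
        have h7 := h6 ((A : ℤ), β) (by simp)
        have h8 := h6 (g.2 * (A : ℤ), g.1 + g.2 * β) (by simp)
        simp only at h7 h8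
        have e2 : (((((A : ℤ) * n + β).toNat + t * (A * d) : ℕ)) : ℤ) =
            (A : ℤ) * ((n + t * d : ℕ) : ℤ) + β := by
          rw [Nat.cast_add, e1]; push_cast; ring
        have e3 : ((A : ℤ) * n + β).toNat + t * (A * d) =
            ((A : ℤ) * ((n + t * d : ℕ) : ℤ) + β).toNat := by
          rw [← e2, Int.toNat_natCast]
        refine ⟨?_, ?_⟩
        · show (((A : ℤ) * n + β).toNat + t * (A * d)).Prime
          rw [e3]; exact h7
        · refine ⟨_, h8, ?_⟩
          have hpos2 : 0 ≤ g.2 * (A : ℤ) * ((n + t * d : ℕ) : ℤ) + (g.1 + g.2 * β) := by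
            by_contra hneg
            rw [Int.toNat_of_nonpos (by omega)] at h8
            exact absurd h8 Nat.not_prime_zero
          rw [Int.toNat_of_nonneg hpos2]
          show _ = g.1 + g.2 * (((((A : ℤ) * n + β).toNat + t * (A * d) : ℕ)) : ℤ)
          rw [e2]; ring
    · intro n hn n' hn' he
      rw [mem_coe, mem_filter] at hn hn'
      have h0 := (hn.2 0 (by omega)).1 ((A : ℤ), β) (by simp)
      have h0' := (hn'.2 0 (by omega)).1 ((A : ℤ), β) (by simp)
      simp only [Nat.zero_mul, Nat.add_zero] at h0 h0' he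
      have hp1 := h0.pos
      have hp2 := h0'.pos
      have h5 : (A : ℤ) * n = A * n' := by omega
      have h6 : (A : ℤ) ≠ 0 := by positivity
      exact_mod_cast mul_left_cancel₀ h6 h5

end Pool.Agent.H40E9.CM
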