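import Mathlib

/-!
# Rigidity of subsets of Abelian groups with the four point property

Let `P` be a subset of an Abelian group such that among any four elements (in this order) two have a
difference (the later minus the earlier) in `P`. Either every element is of the form `p + q - r` with
`p, q, r ∈ P`, or `P` is a subgroup of index two or three.
-/

set_option autoImplicit false

namespace Pool.Agent.H40E9.CM

variable {A : Type*} [AddCommGroup A]

/-- the four point property -/
def Star (P : Set A) : Prop := ∀ x y z w : A,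
  y - x ∈ P ∨ z - x ∈ P ∨ w - x ∈ P ∨ z - y ∈ P ∨ w - y ∈ P ∨ w - z ∈ P

theorem zero_mem {P : Set A} (hP : Star P) : (0 : A) ∈ P := by
  have := hP 0 0 0 0
  simpa using this

/-- from a subgroup to a character -/
theorem char_of {P : Set A} (h0 : (0 : A) ∈ P) (add : ∀ p ∈ P, ∀ q ∈ P, p + q ∈ P)
    (neg : ∀ p ∈ P, -p ∈ P) (h : A) (E : ℕ) (hk : ∀ k : ℤ, k • h ∈ P ↔ (E : ℤ) ∣ k)
    (hy : ∀ y : A, ∃ k : ℤ, y - k • h ∈ P) :
    ∃ χ : A →+ ZMod E, Function.Surjective χ ∧ ∀ x, x ∈ P ↔ χ x = 0 := by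
  choose φ hφ using hy
  have key : ∀ y k, y - k • h ∈ P → ((k : ℤ) : ZMod E) = ((φ y : ℤ) : ZMod E) := by
    intro y k hyk
    rw [ZMod.intCast_eq_intCast_iff_dvd_sub, ← hk]
    have e : (φ y - k) • h = (y - k • h) + -(y - φ y • h) := by
      rw [sub_smul]; abel
    rw [e]
    exact add _ hyk _ (neg _ (hφ y))
  refine ⟨{ toFun := fun y => ((φ y : ℤ) : ZMod E), map_zero' := ?_, map_add' := ?_ }, ?_, ?_⟩
  · rw [← key 0 0 (by simpa using h0)]
    simp
  · intro y z
    rw [← Int.cast_add]
    symm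
    apply key
    have e : y + z - (φ y + φ z) • h = (y - φ y • h) + (z - φ z • h) := by
      rw [add_smul]; abel
    rw [e]
    exact add _ (hφ y) _ (hφ z)
  · intro e
    obtain ⟨k, rfl⟩ := ZMod.intCast_surjective e
    refine ⟨k • h, ?_⟩
    show ((φ (k • h) : ℤ) : ZMod E) = _
    rw [← key (k • h) k (by simpa using h0)]
  · intro x
    show x ∈ P ↔ ((φ x : ℤ) : ZMod E) = 0
    rw [ZMod.intCast_zmod_eq_zero_iff_dvd, ← hk]
    constructor
    · intro hx
      have e : φ x • h = x + -(x - φ x • h) := by abel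
      rw [e]
      exact add _ hx _ (neg _ (hφ x))
    · intro hx
      have e : x = (x - φ x • h) + φ x • h := by abel
      rw [e]
      exact add _ (hφ x) _ hx

theorem zsmul_mem' {P : Set A} (h0 : (0 : A) ∈ P) (add : ∀ p ∈ P, ∀ q ∈ P, p + q ∈ P)
    (neg : ∀ p ∈ P, -p ∈ P) {x : A} (hx : x ∈ P) (k : ℤ) : k • x ∈ P := by
  have hnat : ∀ n : ℕ, n • x ∈ P := by
    intro n
    induction n with
    | zero => simpa using h0
    | succ n ih => rw [succ_nsmul]; exact add _ ih _ hx
  obtain ⟨n, rfl | rfl⟩ := k.eq_nat_or_neg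
  · rw [natCast_zsmul]; exact hnat n
  · rw [neg_smul, natCast_zsmul]; exact neg _ (hnat n)

/-- **rigidity** -/
theorem rigid {P : Set A} (hP : Star P) {h : A}
    (R : ∀ p ∈ P, ∀ q ∈ P, p + q - h ∉ P) :
    ∃ E : ℕ, (E = 2 ∨ E = 3) ∧ ∃ χ : A →+ ZMod E, Function.Surjective χ ∧ ∀ x, x ∈ P ↔ χ x = 0 := by
  have h0 := zero_mem hP
  have mk : ∀ {x y : A}, x ∈ P → x = y → y ∈ P := fun hx e => e ▸ hx
  have nm : ∀ {x y : A}, x ∉ P → x = y → y ∉ P := fun hx e => e ▸ hx
  have hn : -h ∉ P := nm (R 0 h0 0 h0) (by abel)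
  have hp : h ∉ P := fun hh => R h hh 0 h0 (mk h0 (by abel))
  have gap : ∀ y : A, y - h ∈ P ∨ y ∈ P ∨ y + h ∈ P := by
    intro y
    rcases hP 0 (-h) y (y - h) with h4 | h4 | h4 | h4 | h4 | h4
    · exact absurd (mk h4 (by abel)) hn
    · exact Or.inr (Or.inl (mk h4 (by abel)))
    · exact Or.inl (mk h4 (by abel))
    · exact Or.inr (Or.inr (mk h4 (by abel)))
    · exact Or.inr (Or.inl (mk h4 (by abel)))
    · exact absurd (mk h4 (by abel)) hn
  have g2 : h + h ∈ P ∨ h + h + h ∈ P := by
    rcases gap (h + h) with h4 | h4 | h4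
    · exact absurd (mk h4 (by abel)) hp
    · exact Or.inl h4
    · exact Or.inr h4
  have gm : -h - h - h ∈ P ∨ -h - h ∈ P := by
    rcases gap (-h - h) with h4 | h4 | h4
    · exact Or.inl h4
    · exact Or.inr h4
    · exact absurd (mk h4 (by abel)) hn
  by_cases hm2 : -h - h ∈ P
  · -- index two
    have hp2 : h + h ∈ P := by
      rcases g2 with h4 | h4
      · exact h4
      · exact absurd (mk h0 (by abel)) (R _ hm2 _ h4)
    have a1 : ∀ p ∈ P, p + h ∉ P := fun p hpp => nm (R p hpp _ hp2) (by abel)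
    have a2 : ∀ p ∈ P, p - h ∉ P := fun p hpp => nm (R p hpp _ h0) (by abel)
    have a3 : ∀ p ∈ P, p - h - h - h ∉ P := fun p hpp => nm (R p hpp _ hm2) (by abel)
    have a4 : ∀ p ∈ P, p - h - h ∈ P := by
      intro p hpp
      rcases gap (p - h - h) with h4 | h4 | h4
      · exact absurd h4 (a3 p hpp)
      · exact h4
      · exact absurd (mk h4 (by abel)) (a2 p hpp)
    have add : ∀ p ∈ P, ∀ q ∈ P, p + q ∈ P := by
      intro p hpp q hq
      rcases gap (p + q) with h4 | h4 | h4
      · exact absurd h4 (R p hpp q hq)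
      · exact h4
      · exact absurd (mk (a4 _ h4) (by abel)) (R p hpp q hq)
    have neg : ∀ p ∈ P, -p ∈ P := by
      intro p hpp
      rcases gap (-p) with h4 | h4 | h4
      · exact absurd (mk (add p hpp _ h4) (by abel)) hn
      · exact h4
      · exact absurd (mk (add p hpp _ h4) (by abel)) hp
    refine ⟨2, Or.inl rfl, char_of h0 add neg h 2 ?_ ?_⟩
    · intro k
      have h22 : ∀ m : ℤ, (2 * m) • h ∈ P := by
        intro m
        refine mk (zsmul_mem' h0 add neg hp2 m) ?_
        rw [← two_zsmul, smul_smul, mul_comm]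
      constructor
      · intro hk
        by_contra hnd
        obtain ⟨m, rfl⟩ : ∃ m : ℤ, k = 2 * m + 1 := ⟨k / 2, by push_cast at hnd; omega⟩
        apply hp
        refine mk (add _ hk _ (neg _ (h22 m))) ?_
        rw [add_smul, one_smul]; abel
      · rintro ⟨m, rfl⟩
        exact h22 m
    · intro y
      rcases gap y with h4 | h4 | h4
      · exact ⟨1, mk h4 (by simp)⟩
      · exact ⟨0, mk h4 (by simp)⟩
      · exact ⟨-1, mk h4 (by simp)⟩
  · -- index three
    have hm3 : -h - h - h ∈ P := gm.resolve_right hm2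
    have hp3 : h + h + h ∈ P := by
      rcases g2 with hp2 | h4
      swap
      · exact h4
      exfalso
      have b3 : h + h + h ∉ P := nm (R _ hp2 _ hp2) (by abel)
      have b4 : h + h + h + h ∉ P := fun h4 => R _ h4 _ hm3 (mk h0 (by abel))
      have b5 : h + h + h + h + h ∈ P := by
        rcases gap (h + h + h + h) with h4 | h4 | h4
        · exact absurd (mk h4 (by abel)) b3
        · exact absurd h4 b4
        · exact h4
      have b6 : h + h + h + h + h + h ∉ P := nm (R _ b5 _ hp2) (by abel)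
      have b9 : h + h + h + h + h + h + h + h + h ∉ P := nm (R _ b5 _ b5) (by abel)
      rcases hP 0 (h + h + h) (h + h + h + h + h + h) (h + h + h + h + h + h + h + h + h) with
        h4 | h4 | h4 | h4 | h4 | h4
      · exact b3 (mk h4 (by abel))
      · exact b6 (mk h4 (by abel))
      · exact b9 (mk h4 (by abel))
      · exact b3 (mk h4 (by abel))
      · exact b6 (mk h4 (by abel))
      · exact b3 (mk h4 (by abel))
    have a1 : ∀ p ∈ P, p - h ∉ P := fun p hpp => nm (R p hpp _ h0) (by abel)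
    have a2 : ∀ p ∈ P, p + h + h ∉ P := fun p hpp => nm (R p hpp _ hp3) (by abel)
    have a3 : ∀ p ∈ P, p + h ∉ P := fun p hpp h4 => a1 _ h4 (mk hpp (by abel))
    have a4 : ∀ p ∈ P, p - h - h ∉ P := fun p hpp h4 => a2 _ h4 (mk hpp (by abel))
    have a5 : ∀ p ∈ P, p - h - h - h ∈ P := by
      intro p hpp
      rcases gap (p - h - h) with h4 | h4 | h4
      · exact h4
      · exact absurd h4 (a4 p hpp)
      · exact absurd (mk h4 (by abel)) (a1 p hpp)
    have add : ∀ p ∈ P, ∀ q ∈ P, p + q ∈ P := by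
      intro p hpp q hq
      by_contra hcon
      have hr : p + q + h ∈ P := by
        rcases gap (p + q) with h4 | h4 | h4
        · exact absurd h4 (R p hpp q hq)
        · exact absurd h4 hcon
        · exact h4
      have c1 : p + q + h + h ∉ P := a3 _ hr
      have c2 : p + (p + q + h) + h + h ∉ P := by
        intro h4
        exact R p hpp _ hr (mk (a5 _ h4) (by abel))
      rcases hP 0 (p + h) (p + h + (q + h)) (p + h + (q + h) + (p + h)) with
        h4 | h4 | h4 | h4 | h4 | h4
      · exact a3 p hpp (mk h4 (by abel))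
      · exact c1 (mk h4 (by abel))
      · exact c2 (mk h4 (by abel))
      · exact a3 q hq (mk h4 (by abel))
      · exact c1 (mk h4 (by abel))
      · exact a3 p hpp (mk h4 (by abel))
    have neg : ∀ p ∈ P, -p ∈ P := by
      intro p hpp
      rcases gap (-p) with h4 | h4 | h4
      · exact absurd (mk (add p hpp _ h4) (by abel)) hn
      · exact h4
      · exact absurd (mk (add p hpp _ h4) (by abel)) hp
    have hp2 : h + h ∉ P := nm (a2 0 h0) (by abel)
    refine ⟨3, Or.inr rfl, char_of h0 add neg h 3 ?_ ?_⟩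
    · intro k
      have h33 : ∀ m : ℤ, (3 * m) • h ∈ P := by
        intro m
        refine mk (zsmul_mem' h0 add neg hp3 m) ?_
        have e : h + h + h = (3 : ℤ) • h := by
          rw [show (3 : ℤ) = 1 + 1 + 1 by norm_num, add_smul, add_smul, one_smul]
        rw [e, smul_smul, mul_comm]
      constructor
      · intro hk
        by_contra hnd
        obtain ⟨m, hm⟩ : ∃ m : ℤ, k = 3 * m + 1 ∨ k = 3 * m + 2 := ⟨k / 3, by push_cast at hnd; omega⟩
        rcases hm with rfl | rfl
        · apply hp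
          refine mk (add _ hk _ (neg _ (h33 m))) ?_
          rw [add_smul, one_smul]; abel
        · apply hp2
          refine mk (add _ hk _ (neg _ (h33 m))) ?_
          rw [add_smul, two_zsmul]; abel
      · rintro ⟨m, rfl⟩
        exact h33 m
    · intro y
      rcases gap y with h4 | h4 | h4
      · exact ⟨1, mk h4 (by simp)⟩
      · exact ⟨0, mk h4 (by simp)⟩
      · exact ⟨-1, mk h4 (by simp)⟩

/-- **the dichotomy** -/
theorem dichotomy {P : Set A} (hP : Star P) : ∃ E : ℕ, (E = 1 ∨ E = 2 ∨ E = 3) ∧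
    ∃ χ : A →+ ZMod E, Function.Surjective χ ∧
      (∀ x, χ x = 0 → ∃ p ∈ P, ∃ q ∈ P, ∃ r ∈ P, x + r = p + q) ∧
      (E ≠ 1 → ∀ x, χ x = 0 → x ∈ P) := by
  by_cases hall : ∀ x : A, ∃ p ∈ P, ∃ q ∈ P, ∃ r ∈ P, x + r = p + q
  · refine ⟨1, Or.inl rfl, 0, fun e => ⟨0, Subsingleton.elim _ _⟩, fun x _ => hall x, fun h => absurd rfl h⟩
  · push Not at hall
    obtain ⟨h, hh⟩ := hall
    obtain ⟨E, hE, χ, hχ, hk⟩ := rigid hP (h := h) (fun p hp q hq hr => hh p hp q hq _ hr (by abel))
    refine ⟨E, Or.inr hE, χ, hχ, fun x hx => ?_, fun _ x hx => (hk x).2 hx⟩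
    exact ⟨x, (hk x).2 hx, 0, zero_mem hP, 0, zero_mem hP, by abel⟩

end Pool.Agent.H40E9.CM
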