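import Mathlib

/-!
# Sequences in commutative monoids, ultrafilters, and fractions
-/

set_option autoImplicit false

namespace Pool.Agent.H40E9.CM

open Finset Filter Algebra

/-- a sequence `X` such that `X i * w` divides `X j` for `i < j`, `i` large, and such that `X j * u ≠ X i * v` -/
theorem exists_seq {M : Type*} [CommMonoid M] [IsCancelMul M] [Countable M] (g₀ : M)
    (hg₀ : ∀ n : ℕ, 1 ≤ n → g₀ ^ n ≠ 1) : ∃ X : ℕ → M,
      (∀ w : M, ∃ i₀ : ℕ, ∀ i, i₀ ≤ i → ∀ j, i < j → X i * w ∣ X j) ∧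
      ∀ u v : M, ∃ i₀ : ℕ, ∀ i, i₀ ≤ i → ∀ j, i < j → X j * u ≠ X i * v := by
  classical
  have hinj : ∀ m n : ℕ, m < n → g₀ ^ m ≠ g₀ ^ n := by
    intro m n hmn he
    apply hg₀ (n - m) (by omega)
    have h1 : g₀ ^ m * g₀ ^ (n - m) = g₀ ^ m * 1 := by
      rw [← pow_add, Nat.add_sub_cancel' hmn.le, mul_one, he]
    exact mul_left_cancel h1
  have : Nonempty M := ⟨1⟩
  obtain ⟨z, hz⟩ := exists_surjective_nat M
  obtain ⟨f, -, hf⟩ := exists_seq_of_forall_finset_exists (fun _ : ℕ × M => True)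
    (fun x y => x.1 < y.1 ∧ (∀ k ≤ x.1, x.2 * z k ∣ y.2) ∧
      ∀ a ≤ x.1, ∀ b ≤ x.1, y.2 * z a ≠ x.2 * z b) (by
    intro s _
    set m : ℕ := s.sup (fun x => x.1) with hm
    have hxm : ∀ x ∈ s, x.1 ≤ m := fun x hx => Finset.le_sup (f := fun x : ℕ × M => x.1) hx
    set base : M := (∏ x ∈ s, x.2) * ∏ k ∈ range (m + 1), z k with hbase
    obtain ⟨N, hN⟩ : ∃ N : ℕ, ∀ x ∈ s, ∀ a ≤ m, ∀ b ≤ m, base * g₀ ^ N * z a ≠ x.2 * z b := by
      by_contra hcon
      push Not at hcon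
      choose x hx a ha b hb hN using hcon
      obtain ⟨N, N', hne, he⟩ := Finite.exists_ne_map_eq_of_infinite
        (fun N : ℕ => ((⟨x N, hx N⟩ : s), (⟨a N, Nat.lt_succ_of_le (ha N)⟩ : Fin (m + 1)),
          (⟨b N, Nat.lt_succ_of_le (hb N)⟩ : Fin (m + 1))))
      simp only [Prod.mk.injEq, Subtype.mk.injEq, Fin.mk.injEq] at he
      obtain ⟨e1, e2, e3⟩ := he
      have h1 := hN N
      have h2 := hN N'
      rw [← e1, ← e2, ← e3, ← h1] at h2
      have h3 : base * g₀ ^ N' = base * g₀ ^ N := mul_right_cancel h2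
      have h4 : g₀ ^ N' = g₀ ^ N := mul_left_cancel h3
      rcases lt_or_gt_of_ne hne with h5 | h5
      · exact hinj _ _ h5 h4.symm
      · exact hinj _ _ h5 h4
    refine ⟨(m + 1, base * g₀ ^ N), trivial, fun x hx => ⟨?_, ?_, ?_⟩⟩
    · exact Nat.lt_succ_of_le (hxm x hx)
    · intro k hk
      have h1 : x.2 ∣ ∏ x ∈ s, x.2 := Finset.dvd_prod_of_mem (fun x : ℕ × M => x.2) hx
      have h2 : z k ∣ ∏ k ∈ range (m + 1), z k :=
        Finset.dvd_prod_of_mem z (mem_range.2 (Nat.lt_succ_of_le (hk.trans (hxm x hx))))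
      exact (mul_dvd_mul h1 h2).mul_right _
    · intro a ha b hb
      exact hN x hx a (ha.trans (hxm x hx)) b (hb.trans (hxm x hx)))
  have hmono : StrictMono (fun n => (f n).1) := fun m n hmn => (hf m n hmn).1
  have hle : ∀ n, n ≤ (f n).1 := fun n => hmono.le_apply
  refine ⟨fun n => (f n).2, ?_, ?_⟩
  · intro w
    obtain ⟨k, rfl⟩ := hz w
    exact ⟨k, fun i hi j hij => (hf i j hij).2.1 k (hi.trans (hle i))⟩
  · intro u v
    obtain ⟨a, rfl⟩ := hz u
    obtain ⟨b, rfl⟩ := hz v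
    exact ⟨max a b, fun i hi j hij => (hf i j hij).2.2 a ((le_max_left _ _).trans (hi.trans (hle i)))
      b ((le_max_right _ _).trans (hi.trans (hle i)))⟩

/-- homogeneous subsequences from an ultrafilter -/
theorem ultra_seq (U : Ultrafilter ℕ) (hU : (U : Filter ℕ) ≤ atTop) (Q : ℕ → Prop) (R : ℕ → ℕ → Prop)
    (hQ : ∀ᶠ i in (U : Filter ℕ), Q i) (hR : ∀ᶠ i in (U : Filter ℕ), ∀ᶠ j in (U : Filter ℕ), R i j) :
    ∃ s : ℕ → ℕ, (∀ k l, k < l → s k < s l) ∧ (∀ k, Q (s k)) ∧ ∀ k l, k < l → R (s k) (s l) := by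
  obtain ⟨f, hf1, hf2⟩ := exists_seq_of_forall_finset_exists
    (fun x : ℕ => Q x ∧ ∀ᶠ j in (U : Filter ℕ), R x j) (fun x y => x < y ∧ R x y) (by
    intro s hs
    have h1 : ∀ᶠ y in (U : Filter ℕ), ∀ x ∈ s, x < y ∧ R x y := by
      rw [Filter.eventually_all_finset]
      intro x hx
      exact ((eventually_gt_atTop x).filter_mono hU).and (hs x hx).2
    exact ((hQ.and hR).and h1).exists)
  exact ⟨f, fun k l h => (hf2 k l h).1, fun k => (hf1 k).1, fun k l h => (hf2 k l h).2⟩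

/-- an ultrafilter is constant on a finite colouring -/
theorem ultra_color {β : Type*} [Finite β] (U : Ultrafilter ℕ) (c : ℕ → β) :
    ∃ b, ∀ᶠ i in (U : Filter ℕ), c i = b := by
  by_contra hcon
  push Not at hcon
  have h1 : ∀ᶠ i in (U : Filter ℕ), ∀ b, c i ≠ b := by
    rw [eventually_all]
    intro b
    exact hcon b
  obtain ⟨i, hi⟩ := h1.exists
  exact hi _ rfl

section frac

variable {M : Type*} [CommMonoid M]

/-- fractions -/
theorem exists_div (γ : GrothendieckGroup M) : ∃ u v : M,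
    γ * GrothendieckGroup.of v = GrothendieckGroup.of u := by
  induction γ using Localization.ind with
  | H x =>
    obtain ⟨u, v⟩ := x
    refine ⟨u, v, ?_⟩
    rw [Localization.mk_eq_monoidOf_mk']
    exact Submonoid.LocalizationMap.mk'_spec _ _ _

/-- common denominators -/
theorem common {n : ℕ} (γ : Fin n → GrothendieckGroup M) : ∃ (w : M) (u : Fin n → M), ∀ a,
    γ a * GrothendieckGroup.of w = GrothendieckGroup.of (u a) := by
  classical
  choose u v huv using fun a => exists_div (γ a)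
  refine ⟨∏ a, v a, fun a => u a * ∏ b ∈ univ.erase a, v b, fun a => ?_⟩
  rw [map_mul, ← huv a, mul_assoc, ← map_mul, Finset.mul_prod_erase univ v (mem_univ a)]

end frac

end Pool.Agent.H40E9.CM
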