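import Mathlib
import Pool.Agent.H40E9.CM.Rig
import Pool.Agent.H40E9.CM.Col
import Pool.Agent.H40E9.CM.Seq

/-!
# Commuting affine maps: the limit set has the four point property
-/

set_option autoImplicit false

namespace Pool.Agent.H40E9.CM

open Finset Filter Algebra
open Pool.Agent.Y827.HN

/-- the map `x ↦ a + d x` -/
@[ext] structure Aff where
  /-- the constant -/
  a : ℤ
  /-- the slope -/
  d : ℤ

instance : Mul Aff := ⟨fun g h => ⟨g.a + g.d * h.a, g.d * h.d⟩⟩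
instance : One Aff := ⟨⟨0, 1⟩⟩

@[simp] theorem Aff.mul_a (g h : Aff) : (g * h).a = g.a + g.d * h.a := rfl
@[simp] theorem Aff.mul_d (g h : Aff) : (g * h).d = g.d * h.d := rfl
@[simp] theorem Aff.one_a : (1 : Aff).a = 0 := rfl
@[simp] theorem Aff.one_d : (1 : Aff).d = 1 := rfl

instance : Monoid Aff where
  mul_assoc g h k := by
    ext
    · simp only [Aff.mul_a, Aff.mul_d]; ring
    · simp only [Aff.mul_d]; ring
  one_mul g := by
    ext
    · simp only [Aff.mul_a, Aff.one_a, Aff.one_d]; ring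
    · simp only [Aff.mul_d, Aff.one_d]; ring
  mul_one g := by
    ext
    · simp only [Aff.mul_a, Aff.one_a]; ring
    · simp only [Aff.mul_d, Aff.one_d]; ring

/-- commuting maps which satisfy the hypotheses of the question and are no nonzero translations modulo three -/
structure Sys (S : Submonoid Aff) : Prop where
  comm : ∀ g ∈ S, ∀ h ∈ S, g * h = h * g
  pos : ∀ g ∈ S, 1 ≤ g.d
  cop : ∀ g ∈ S, IsCoprime g.a g.d
  two : ∀ g ∈ S, (2 : ℤ) ∣ g.a * g.d
  three : ∀ g ∈ S, (3 : ℤ) ∣ g.d - 1 → (3 : ℤ) ∣ g.a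
  ne : ∃ g ∈ S, g ≠ 1

/-- the maps as a commutative monoid -/
structure MM {S : Submonoid Aff} (h : Sys S) where
  /-- the map -/
  val : Aff
  prop : val ∈ S

variable {S : Submonoid Aff} (h : Sys S)

theorem MM.ext' {g k : MM h} (he : g.1 = k.1) : g = k := by
  cases g; cases k; cases he; rfl

instance : Mul (MM h) := ⟨fun g k => ⟨g.1 * k.1, S.mul_mem g.2 k.2⟩⟩
instance : One (MM h) := ⟨⟨1, S.one_mem⟩⟩

instance : CommMonoid (MM h) where
  mul_assoc g k l := MM.ext' h (mul_assoc g.1 k.1 l.1)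
  one_mul g := MM.ext' h (one_mul g.1)
  mul_one g := MM.ext' h (mul_one g.1)
  mul_comm g k := MM.ext' h (h.comm _ g.2 _ k.2)

theorem MM.val_mul (g k : MM h) : (g * k).1 = g.1 * k.1 := rfl
theorem MM.val_one : (1 : MM h).1 = 1 := rfl

instance : Countable (MM h) := by
  have hinj : Function.Injective (fun g : MM h => ((g.1.a, g.1.d) : ℤ × ℤ)) := by
    intro g k hgk
    have h1 : g.1.a = k.1.a := congrArg Prod.fst hgk
    have h2 : g.1.d = k.1.d := congrArg Prod.snd hgk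
    exact MM.ext' h (Aff.ext h1 h2)
  exact hinj.countable

theorem MM.cancel (g k l : MM h) (he : g * k = g * l) : k = l := by
  have h1 : g.1 * k.1 = g.1 * l.1 := congrArg MM.val he
  have h2 : g.1.a + g.1.d * k.1.a = g.1.a + g.1.d * l.1.a := congrArg Aff.a h1
  have h3 : g.1.d * k.1.d = g.1.d * l.1.d := congrArg Aff.d h1
  have h4 : g.1.d ≠ 0 := by have := h.pos _ g.2; omega
  have h5 : g.1.d * k.1.a = g.1.d * l.1.a := by linarith
  exact MM.ext' h (Aff.ext (mul_left_cancel₀ h4 h5) (mul_left_cancel₀ h4 h3))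

instance : IsCancelMul (MM h) where
  mul_left_cancel g _ _ he := MM.cancel h g _ _ he
  mul_right_cancel g k l he := MM.cancel h g _ _ (by
    have he' : k * g = l * g := he
    rw [mul_comm g k, mul_comm g l]
    exact he')

/-- an element of infinite order -/
theorem MM.order : ∃ g₀ : MM h, ∀ n : ℕ, 1 ≤ n → g₀ ^ n ≠ 1 := by
  obtain ⟨g, hg, hne⟩ := h.ne
  obtain ⟨g₀, hg₀⟩ : ∃ g₀ : MM h, g₀.1 = g := ⟨⟨g, hg⟩, rfl⟩
  refine ⟨g₀, fun n hn he => ?_⟩
  have hd : ∀ n : ℕ, ((g₀ ^ n).1).d = g.d ^ n := by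
    intro n
    induction n with
    | zero => rw [pow_zero, pow_zero]; rfl
    | succ n ih => rw [pow_succ, MM.val_mul, Aff.mul_d, ih, pow_succ, hg₀]
  have h1 : g.d ^ n = 1 := by
    rw [← hd, he]; rfl
  have hpos := h.pos g hg
  have h2 : g.d = 1 := by
    rcases eq_or_lt_of_le hpos with h3 | h3
    · exact h3.symm
    · exfalso
      have h4 : 1 < g.d ^ n := one_lt_pow₀ h3 (by omega)
      omega
  have ha : ∀ n : ℕ, ((g₀ ^ n).1).a = n * g.a := by
    intro n
    induction n with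
    | zero => rw [pow_zero, Nat.cast_zero, zero_mul]; rfl
    | succ n ih =>
      rw [pow_succ, MM.val_mul, Aff.mul_a, ih, hd, h2, hg₀]
      push_cast
      ring
  have h5 : (n : ℤ) * g.a = 0 := by
    rw [← ha, he]; rfl
  have h6 : g.a = 0 := by
    rcases mul_eq_zero.1 h5 with h7 | h7
    · omega
    · exact h7
  exact hne (Aff.ext h6 h2)

/-- the good maps -/
def GG (g : MM h) : Prop := Good (g.1.a, g.1.d)

/-- the limit set -/
def PP (X : ℕ → MM h) (U : Ultrafilter ℕ) : Set (GrothendieckGroup (MM h)) :=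
  {γ | ∀ᶠ i in (U : Filter ℕ), ∀ᶠ j in (U : Filter ℕ), ∃ g : MM h, GG h g ∧
    GrothendieckGroup.of (X j) * γ = GrothendieckGroup.of g * GrothendieckGroup.of (X i)}

/-! ### Local conditions -/

include h

theorem adm2 {f : Aff} (hf : f ∈ S) : ¬ (2 : ℤ) ∣ f.a + f.d * 1 := by
  have h1 := h.two f hf
  have h2 := h.cop f hf
  have h3 : ¬ ((2 : ℤ) ∣ f.a ∧ (2 : ℤ) ∣ f.d) := by
    rintro ⟨h4, h5⟩
    have h6 := h2.isUnit_of_dvd' h4 h5
    rw [Int.isUnit_iff] at h6
    omega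
  rcases (Int.prime_two.dvd_mul).1 h1 with h4 | h4 <;> omega

theorem adm3 : ∃ r : ℤ, ∀ f ∈ S, ¬ (3 : ℤ) ∣ f.a + f.d * r := by
  have hcop : ∀ f ∈ S, ¬ ((3 : ℤ) ∣ f.a ∧ (3 : ℤ) ∣ f.d) := by
    rintro f hf ⟨h4, h5⟩
    have h6 := (h.cop f hf).isUnit_of_dvd' h4 h5
    rw [Int.isUnit_iff] at h6
    omega
  by_cases hg : ∃ g ∈ S, g.d % 3 = 2
  · obtain ⟨g, hg, hg2⟩ := hg
    have hb : ∀ f ∈ S, f.d % 3 = 2 → f.a % 3 = g.a % 3 := by
      intro f hf hf2
      have h1 := h.comm f hf g hg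
      have h2 : f.a + f.d * g.a = g.a + g.d * f.a := congrArg Aff.a h1
      obtain ⟨k, hk⟩ : ∃ k, f.d = 3 * k + 2 := ⟨f.d / 3, by omega⟩
      obtain ⟨l, hl⟩ : ∃ l, g.d = 3 * l + 2 := ⟨g.d / 3, by omega⟩
      rw [hk, hl] at h2
      have h3 : g.a - f.a = 3 * (l * f.a - k * g.a) := by linear_combination h2
      omega
    obtain ⟨r, hr0, hrb⟩ : ∃ r : ℤ, r % 3 ≠ 0 ∧ r % 3 ≠ g.a % 3 := by
      by_cases h1 : g.a % 3 = 1
      · exact ⟨2, by omega, by omega⟩
      · exact ⟨1, by omega, by omega⟩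
    refine ⟨r, fun f hf hdvd => ?_⟩
    have h3 := h.three f hf
    have h4 := hcop f hf
    have h5 := hb f hf
    obtain ⟨k, hk⟩ : ∃ k, f.d = 3 * k + f.d % 3 := ⟨f.d / 3, by omega⟩
    have h6 : f.a + f.d * r = f.a + (f.d % 3) * r + 3 * (k * r) := by
      nth_rewrite 1 [hk]; ring
    rw [h6] at hdvd
    have h7 : f.d % 3 = 0 ∨ f.d % 3 = 1 ∨ f.d % 3 = 2 := by omega
    rcases h7 with h7 | h7 | h7
    · rw [h7] at hdvd; omega
    · rw [h7] at hdvd
      have := h3 (by omega)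
      omega
    · rw [h7] at hdvd
      have := h5 h7
      omega
  · push Not at hg
    refine ⟨1, fun f hf hdvd => ?_⟩
    have h3 := h.three f hf
    have h4 := hcop f hf
    have h5 := hg f hf
    have h7 : f.d % 3 = 0 ∨ f.d % 3 = 1 := by omega
    rcases h7 with h7 | h7
    · omega
    · have := h3 (by omega)
      omega

theorem adm5 {p : ℕ} (hp : p.Prime) (hp5 : 5 ≤ p) (f : Fin 4 → Aff) (hf : ∀ a, f a ∈ S) :
    ∃ r : ℤ, ∀ a, (((f a).a + (f a).d * r : ℤ) : ZMod p) ≠ 0 := by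
  have : Fact p.Prime := ⟨hp⟩
  by_contra hcon
  push Not at hcon
  choose c hc using hcon
  obtain ⟨x, y, hxy, hcxy⟩ := Fintype.exists_ne_map_eq_of_card_lt
    (fun x : ZMod p => c (x.val : ℤ)) (by rw [ZMod.card, Fintype.card_fin]; omega)
  have h1 := hc (x.val : ℤ)
  have h2 := hc (y.val : ℤ)
  have hcxy' : c (x.val : ℤ) = c (y.val : ℤ) := hcxy
  rw [hcxy'] at h1
  set g := f (c (y.val : ℤ)) with hg
  push_cast at h1 h2
  rw [ZMod.natCast_zmod_val] at h1 h2
  have h3 : (g.d : ZMod p) * (x - y) = 0 := by linear_combination h1 - h2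
  have h4 : (g.d : ZMod p) = 0 := by
    rcases mul_eq_zero.1 h3 with h5 | h5
    · exact h5
    · exact absurd (sub_eq_zero.1 h5) hxy
  have h5 : (g.a : ZMod p) = 0 := by
    rw [h4, zero_mul, add_zero] at h2
    exact h2
  rw [ZMod.intCast_zmod_eq_zero_iff_dvd] at h4 h5
  have h6 := (h.cop g (hf _)).isUnit_of_dvd' h5 h4
  rw [Int.isUnit_iff] at h6
  have h7 : (2 : ℤ) ≤ p := by exact_mod_cast hp.two_le
  omega

/-! ### The four point property -/

omit h in
theorem cancel_aux {G : Type*} [CommGroup G] {x γ₁ γ₂ w z t : G}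
    (e : x * (γ₂ * w) = z * t * (γ₁ * w)) : x * (γ₂ * γ₁⁻¹) = z * t := by
  have e1 : x * γ₂ * w = z * t * γ₁ * w := by rw [mul_assoc x, e, ← mul_assoc (z * t)]
  have e2 := mul_right_cancel e1
  rw [← mul_assoc, e2, mul_inv_cancel_right]

theorem star_PP (X : ℕ → MM h)
    (hX1 : ∀ w : MM h, ∃ i₀ : ℕ, ∀ i, i₀ ≤ i → ∀ j, i < j → X i * w ∣ X j)
    (hX2 : ∀ u v : MM h, ∃ i₀ : ℕ, ∀ i, i₀ ≤ i → ∀ j, i < j → X j * u ≠ X i * v)
    (U : Ultrafilter ℕ) (hU : (U : Filter ℕ) ≤ atTop) (γ : Fin 4 → GrothendieckGroup (MM h)) :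
    ∃ a b : Fin 4, a < b ∧ γ b * (γ a)⁻¹ ∈ PP h X U := by
  classical
  by_contra hcon
  push Not at hcon
  obtain ⟨K, hK, hpair⟩ := pair4
  obtain ⟨w, u, hwu⟩ := common γ
  -- the cofactors
  obtain ⟨i1, hi1⟩ := hX1 w
  have hy : ∀ i, ∃ y : MM h, i1 < i → X i = w * y := by
    intro i
    by_cases hi : i1 < i
    · obtain ⟨z, hz⟩ := hi1 i1 le_rfl i hi
      refine ⟨X i1 * z, fun _ => ?_⟩
      rw [hz, mul_comm (X i1) w, mul_assoc]
    · exact ⟨1, fun h' => absurd h' hi⟩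
  choose y hy using hy
  choose i2 hi2 using fun a : Fin 4 => hX1 (u a)
  choose i3 hi3 using fun ab : Fin 4 × Fin 4 => hX2 (u ab.1) (u ab.2)
  set I : ℕ := i1 + 1 + ∑ a, i2 a + ∑ ab, i3 ab with hI
  have hI1 : i1 < I := by omega
  have hI2 : ∀ a, i2 a ≤ I := by
    intro a
    have := Finset.single_le_sum (f := i2) (fun _ _ => Nat.zero_le _) (mem_univ a)
    omega
  have hI3 : ∀ ab, i3 ab ≤ I := by
    intro ab
    have := Finset.single_le_sum (f := i3) (fun _ _ => Nat.zero_le _) (mem_univ ab)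
    omega
  -- the colour
  set L : ℕ := (4 * K).factorial with hL
  have : NeZero L := ⟨Nat.factorial_ne_zero _⟩
  obtain ⟨c, hc⟩ := ultra_color U (fun i => (((y i).1.a : ZMod L), ((y i).1.d : ZMod L)))
  have hcon' : ∀ᶠ i in (U : Filter ℕ), ∀ᶠ j in (U : Filter ℕ), ∀ ab : Fin 4 × Fin 4, ab.1 < ab.2 →
      ¬ ∃ g : MM h, GG h g ∧ GrothendieckGroup.of (X j) * (γ ab.2 * (γ ab.1)⁻¹) =
        GrothendieckGroup.of g * GrothendieckGroup.of (X i) := by
    simp only [eventually_all]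
    intro ab hab
    have h1 := hcon ab.1 ab.2 hab
    unfold PP at h1
    rw [Set.mem_ofPred_eq, ← Ultrafilter.eventually_not] at h1
    filter_upwards [h1] with i hi
    rwa [← Ultrafilter.eventually_not] at hi
  obtain ⟨s, hs1, hs2, hs3⟩ := ultra_seq U hU
    (fun i => I ≤ i ∧ (((y i).1.a : ZMod L), ((y i).1.d : ZMod L)) = c) _
    (((eventually_ge_atTop I).filter_mono hU).and hc) hcon'
  have hyy : ∀ m, X (s m) = w * y (s m) := fun m => hy _ (lt_of_lt_of_le hI1 (hs2 m).1)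
  -- divisibility and distinctness of the cofactors
  have hdvd : ∀ a m m', m < m' → y (s m) * u a ∣ y (s m') := by
    intro a m m' hmm
    obtain ⟨z, hz⟩ := hi2 a (s m) ((hI2 a).trans (hs2 m).1) (s m') (hs1 m m' hmm)
    refine ⟨z, ?_⟩
    apply mul_left_cancel (a := w)
    rw [← hyy, hz, hyy, mul_assoc, mul_assoc, mul_assoc]
  have hneq : ∀ a b m m', m < m' → y (s m') * u a ≠ y (s m) * u b := by
    intro a b m m' hmm he
    apply hi3 (a, b) (s m) ((hI3 _).trans (hs2 m).1) (s m') (hs1 m m' hmm)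
    rw [hyy, hyy, mul_assoc, mul_assoc, he]
  -- the indices
  have hidx : ∀ a b : Fin 4, ∀ k l : Fin K, a < b → (a : ℕ) * K + k < (b : ℕ) * K + l := by
    intro a b k l hab
    have h1 : (a : ℕ) + 1 ≤ b := hab
    have h2 : ((a : ℕ) + 1) * K ≤ b * K := Nat.mul_le_mul_right _ h1
    have h3 := k.2
    have h4 : ((a : ℕ) + 1) * K = a * K + K := by ring
    omega
  set f : Fin 4 → Fin K → MM h := fun a k => y (s ((a : ℕ) * K + k)) * u a with hf
  obtain ⟨a, b, hab, k, l, hq⟩ := hpair (fun a k => ((f a k).1.d, (f a k).1.a)) (by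
      rintro ⟨a, k⟩ ⟨b, l⟩ he
      simp only [Prod.mk.injEq] at he
      have he1 : f a k = f b l := MM.ext' h (Aff.ext he.2 he.1)
      rcases lt_trichotomy ((a : ℕ) * K + k) ((b : ℕ) * K + l) with h1 | h1 | h1
      · exact absurd he1.symm (hneq b a _ _ h1)
      · rcases lt_trichotomy a b with h2 | h2 | h2
        · have := hidx a b k l h2; omega
        · subst h2
          have h3 : (k : ℕ) = l := by omega
          rw [Fin.ext h3]
        · have := hidx b a l k h2; omega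
      · exact absurd he1 (hneq a b _ _ h1))
    (fun a k => ⟨by have := h.pos _ (f a k).2; show 0 < (f a k).1.d; omega, (h.cop _ (f a k).2).symm⟩)
    (by
      intro p hp hpK
      have key : (∃ r : ℤ, ∀ a k, ¬ (p : ℤ) ∣ (f a k).1.a + (f a k).1.d * r) →
          ∃ r : ℤ, ∀ g i, ¬ (p : ℤ) ∣ (f g i).1.d * r + (f g i).1.a := by
        rintro ⟨r, hr⟩
        exact ⟨r, fun a k hd => hr a k (by rw [add_comm, mul_comm] at hd; rwa [mul_comm] )⟩
      apply key
      by_cases hp5 : 5 ≤ p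
      · obtain ⟨r, hr⟩ := adm5 h hp hp5 (fun a => (f a ⟨0, hK⟩).1) (fun a => (f a ⟨0, hK⟩).2)
        refine ⟨r, fun a k hd => hr a ?_⟩
        have hpL : p ∣ L := by
          rw [hL]; exact (Nat.Prime.dvd_factorial hp).2 hpK
        have hcol : ∀ m, ((((y (s m)).1.a : ℤ) : ZMod p) = ZMod.castHom hpL (ZMod p) c.1) ∧
            (((y (s m)).1.d : ℤ) : ZMod p) = ZMod.castHom hpL (ZMod p) c.2 := by
          intro m
          have h1 := (hs2 m).2
          rw [← h1]
          exact ⟨by rw [map_intCast], by rw [map_intCast]⟩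
        have h2 : ∀ m m', (((y (s m) * u a).1.a + (y (s m) * u a).1.d * r : ℤ) : ZMod p) =
            (((y (s m') * u a).1.a + (y (s m') * u a).1.d * r : ℤ) : ZMod p) := by
          intro m m'
          simp only [MM.val_mul, Aff.mul_a, Aff.mul_d]
          push_cast
          rw [(hcol m).1, (hcol m).2, (hcol m').1, (hcol m').2]
        show (((f a ⟨0, hK⟩).1.a + (f a ⟨0, hK⟩).1.d * r : ℤ) : ZMod p) = 0
        rw [hf]
        simp only
        rw [h2 _ ((a : ℕ) * K + k), ZMod.intCast_zmod_eq_zero_iff_dvd]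
        exact hd
      · have hp23 : p = 2 ∨ p = 3 := by
          have := hp.two_le
          have h4 : p ≠ 4 := by rintro rfl; exact absurd hp (by decide)
          omega
        rcases hp23 with rfl | rfl
        · exact ⟨1, fun a k => adm2 h (f a k).2⟩
        · obtain ⟨r, hr⟩ := adm3 h
          exact ⟨r, fun a k => hr _ (f a k).2⟩)
  -- the good map
  obtain ⟨z, hz⟩ := hdvd a _ _ (hidx a b k l hab)
  have hfb : f b l = (z * u b) * f a k := by
    show y (s ((b : ℕ) * K + l)) * u b = (z * u b) * (y (s ((a : ℕ) * K + k)) * u a)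
    rw [hz]
    ac_rfl
  apply hs3 _ _ (hidx a b k l hab) (a, b) hab
  refine ⟨z * u b, ?_, ?_⟩
  · refine good_of (α := (f a k).1.d) (β := (f a k).1.a) (by
      have := h.pos _ (f a k).2; omega) _ ?_
    intro l'
    obtain ⟨C, hC⟩ := hq l'
    refine ⟨C, ?_⟩
    have e1 : (((f b l).1.d, (f b l).1.a) : ℤ × ℤ) = (((z * u b).1.d * (f a k).1.d : ℤ),
        ((z * u b).1.a + (z * u b).1.d * (f a k).1.a : ℤ)) := by
      rw [hfb, MM.val_mul, Aff.mul_a, Aff.mul_d]
    rw [e1] at hC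
    exact hC
  · show GrothendieckGroup.of (X (s ((b : ℕ) * K + l))) * (γ b * (γ a)⁻¹) =
      GrothendieckGroup.of (z * u b) * GrothendieckGroup.of (X (s ((a : ℕ) * K + k)))
    have e3 : X (s ((b : ℕ) * K + l)) * u b = z * u b * X (s ((a : ℕ) * K + k)) * u a := by
      rw [hyy, hyy, hz]
      ac_rfl
    have e4 := congrArg (GrothendieckGroup.of (M := MM h)) e3
    rw [map_mul, map_mul _ (z * u b * X (s ((a : ℕ) * K + k))), map_mul _ (z * u b), ← hwu, ← hwu] at e4
    exact cancel_aux e4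

end Pool.Agent.H40E9.CM
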