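import Mathlib
import Pool.Agent.H40E9.CM.Core

/-!
# Commuting affine maps: the main theorem
-/

set_option autoImplicit false

namespace Pool.Agent.H40E9.CM

open Finset Filter Algebra

variable {S : Submonoid Aff} (h : Sys S)

theorem eq_aux {G : Type*} [CommGroup G] {xj γ g xi u v : G}
    (e : xj * γ = g * xi) (huv : γ * v = u) : xj * u = g * xi * v := by
  rw [← huv, ← mul_assoc, e]

/-- the maps can be taken divisible by `w` -/
theorem PP_div (X : ℕ → MM h)
    (hX1 : ∀ w : MM h, ∃ i₀ : ℕ, ∀ i, i₀ ≤ i → ∀ j, i < j → X i * w ∣ X j)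
    (U : Ultrafilter ℕ) (hU : (U : Filter ℕ) ≤ atTop) {γ : GrothendieckGroup (MM h)}
    (hγ : γ ∈ PP h X U) (w : MM h) :
    ∀ᶠ i in (U : Filter ℕ), ∀ᶠ j in (U : Filter ℕ), ∃ z : MM h, GG h (w * z) ∧
      GrothendieckGroup.of (X j) * γ = GrothendieckGroup.of (w * z) * GrothendieckGroup.of (X i) := by
  obtain ⟨u, v, huv⟩ := exists_div γ
  obtain ⟨i₀, hi₀⟩ := hX1 (w * v)
  have hγ' : ∀ᶠ i in (U : Filter ℕ), ∀ᶠ j in (U : Filter ℕ), ∃ g : MM h, GG h g ∧
    GrothendieckGroup.of (X j) * γ = GrothendieckGroup.of g * GrothendieckGroup.of (X i) := hγ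
  filter_upwards [hγ', (eventually_ge_atTop i₀).filter_mono hU] with i hi hi0
  filter_upwards [hi, (eventually_gt_atTop i).filter_mono hU] with j hj hij
  obtain ⟨g, hg, he⟩ := hj
  obtain ⟨z, hz⟩ := hi₀ i hi0 j hij
  have e1 := eq_aux he huv
  rw [← map_mul, ← map_mul, ← map_mul] at e1
  have e2 := GrothendieckGroup.of_injective e1
  have e3 : g = w * (z * u) := by
    apply mul_right_cancel (b := X i * v)
    rw [← mul_assoc g, ← e2, hz]
    ac_rfl
  refine ⟨z * u, ?_, ?_⟩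
  · rw [← e3]; exact hg
  · rw [← e3]; exact he

/-- **main theorem** -/
theorem main : ∃ E : ℕ, (E = 1 ∨ E = 2 ∨ E = 3) ∧ ∃ χ : MM h → ZMod E,
    (∀ g k, χ (g * k) = χ g + χ k) ∧ (∀ e, ∃ g, χ g = e) ∧
    (∀ x, χ x = 0 → ∀ w, ∃ z₁ z₂ z₃, GG h (w * z₁) ∧ GG h (w * z₂) ∧ GG h (w * z₃) ∧
      x * (w * z₃) = (w * z₁) * (w * z₂)) ∧
    (E ≠ 1 → ∀ F : Finset (MM h), (∀ x ∈ F, χ x = 0) → ∀ w, ∃ z, ∀ x ∈ F, GG h (w * z * x)) := by
  classical
  obtain ⟨g₀, hg₀⟩ := MM.order h
  obtain ⟨X, hX1, hX2⟩ := exists_seq g₀ hg₀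
  obtain ⟨U, hU⟩ : ∃ U : Ultrafilter ℕ, (U : Filter ℕ) ≤ atTop := ⟨hyperfilter ℕ, Nat.hyperfilter_le_atTop⟩
  set P : Set (Additive (GrothendieckGroup (MM h))) := {x | x.toMul ∈ PP h X U} with hP
  have hsub : ∀ x y : Additive (GrothendieckGroup (MM h)), y.toMul * (x.toMul)⁻¹ ∈ PP h X U → y - x ∈ P := by
    intro x y hxy
    show (y - x).toMul ∈ PP h X U
    rw [toMul_sub, div_eq_mul_inv]
    exact hxy
  have hstar : Star P := by
    intro x y z w
    obtain ⟨a, b, hab, hm⟩ := star_PP h X hX1 hX2 U hU (fun a => (![x, y, z, w] a).toMul)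
    have hm' : ![x, y, z, w] b - ![x, y, z, w] a ∈ P := hsub _ _ hm
    clear hm
    clear_value P
    fin_cases a <;> fin_cases b <;> simp at hab hm' ⊢ <;> tauto
  obtain ⟨E, hE, χ, hχ1, hχ2, hχ3⟩ := dichotomy hstar
  have hmul : ∀ g k : MM h, χ (Additive.ofMul (GrothendieckGroup.of (g * k))) =
      χ (Additive.ofMul (GrothendieckGroup.of g)) + χ (Additive.ofMul (GrothendieckGroup.of k)) := by
    intro g k
    rw [map_mul, ofMul_mul, map_add]
  refine ⟨E, hE, fun g => χ (Additive.ofMul (GrothendieckGroup.of g)), hmul, ?_, ?_, ?_⟩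
  · intro e
    obtain ⟨x, hx⟩ := hχ1 e
    obtain ⟨u, v, huv⟩ := exists_div x.toMul
    have hpow : ∀ n : ℕ, χ (Additive.ofMul (GrothendieckGroup.of (v ^ n))) =
        n * χ (Additive.ofMul (GrothendieckGroup.of v)) := by
      intro n
      induction n with
      | zero => rw [pow_zero, map_one, ofMul_one, map_zero]; simp
      | succ n ih => rw [pow_succ, hmul, ih]; push_cast; ring
    refine ⟨u * v ^ (E - 1), ?_⟩
    show χ (Additive.ofMul (GrothendieckGroup.of (u * v ^ (E - 1)))) = e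
    rw [hmul, hpow, ← huv, ofMul_mul, map_add, ofMul_toMul, hx]
    have hE1 : 1 ≤ E := by omega
    have h1 : (((E - 1 : ℕ) : ZMod E) + 1) = 0 := by
      have : (((E - 1 : ℕ) : ZMod E) + 1) = ((E - 1 + 1 : ℕ) : ZMod E) := by push_cast; ring
      rw [this, Nat.sub_add_cancel hE1, ZMod.natCast_self]
    linear_combination (χ (Additive.ofMul (GrothendieckGroup.of v))) * h1
  · intro x hx w
    obtain ⟨p, hp, q, hq, r, hr, he⟩ := hχ2 _ hx
    have h1 := PP_div h X hX1 U hU hp w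
    have h2 := PP_div h X hX1 U hU hq w
    have h3 := PP_div h X hX1 U hU hr w
    have hall : ∀ᶠ i in (U : Filter ℕ), ∀ᶠ j in (U : Filter ℕ), ∀ᶠ k in (U : Filter ℕ),
        (∃ z : MM h, GG h (w * z) ∧ GrothendieckGroup.of (X j) * p.toMul =
          GrothendieckGroup.of (w * z) * GrothendieckGroup.of (X i)) ∧
        (∃ z : MM h, GG h (w * z) ∧ GrothendieckGroup.of (X k) * q.toMul =
          GrothendieckGroup.of (w * z) * GrothendieckGroup.of (X j)) ∧
        (∃ z : MM h, GG h (w * z) ∧ GrothendieckGroup.of (X k) * r.toMul =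
          GrothendieckGroup.of (w * z) * GrothendieckGroup.of (X i)) := by
      filter_upwards [h1, h3] with i hi hi3
      filter_upwards [hi, h2] with j hj hj2
      filter_upwards [hj2, hi3] with k hk hk3
      exact ⟨hj, hk, hk3⟩
    obtain ⟨i, hi⟩ := hall.exists
    obtain ⟨j, hj⟩ := hi.exists
    obtain ⟨k, ⟨z₁, hz₁, e₁⟩, ⟨z₂, hz₂, e₂⟩, ⟨z₃, hz₃, e₃⟩⟩ := hj.exists
    refine ⟨z₁, z₂, z₃, hz₁, hz₂, hz₃, ?_⟩
    have he' : GrothendieckGroup.of x * r.toMul = p.toMul * q.toMul := by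
      have := congrArg Additive.toMul he
      rw [toMul_add, toMul_add, toMul_ofMul] at this
      exact this
    have e4 : GrothendieckGroup.of (x * (w * z₃)) * GrothendieckGroup.of (X i) =
        GrothendieckGroup.of ((w * z₁) * (w * z₂)) * GrothendieckGroup.of (X i) := by
      rw [map_mul _ x, map_mul _ (w * z₁), mul_assoc, ← e₃, mul_left_comm, he', mul_left_comm,
        e₂, mul_left_comm, mul_comm p.toMul, e₁]
      ac_rfl
    exact GrothendieckGroup.of_injective (mul_right_cancel e4)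
  · intro hE1 F hF w
    obtain ⟨i₀, hi₀⟩ := hX1 w
    have hall : ∀ᶠ i in (U : Filter ℕ), ∀ᶠ j in (U : Filter ℕ), ∀ x ∈ F, ∃ g : MM h, GG h g ∧
        GrothendieckGroup.of (X j) * GrothendieckGroup.of x =
          GrothendieckGroup.of g * GrothendieckGroup.of (X i) := by
      simp only [Filter.eventually_all_finset]
      intro x hx
      have := hχ3 hE1 _ (hF x hx)
      exact this
    obtain ⟨i, hi, hi0⟩ := (hall.and ((eventually_ge_atTop i₀).filter_mono hU)).exists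
    obtain ⟨j, hj, hij⟩ := (hi.and ((eventually_gt_atTop i).filter_mono hU)).exists
    obtain ⟨z, hz⟩ := hi₀ i hi0 j hij
    refine ⟨z, fun x hx => ?_⟩
    obtain ⟨g, hg, he⟩ := hj x hx
    rw [← map_mul, ← map_mul] at he
    have e1 := GrothendieckGroup.of_injective he
    have e2 : g = w * z * x := by
      apply mul_right_cancel (b := X i)
      rw [← e1, hz]
      ac_rfl
    rw [← e2]
    exact hg

end Pool.Agent.H40E9.CM
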