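import Mathlib
import Pool.Agent.H40E9.CM.Main

/-!
# Commuting affine maps: the theorem for sets of pairs
-/

set_option autoImplicit false

namespace Pool.Agent.H40E9.CM

open Finset Filter Algebra

/-- composition of pairs -/
def cp (g h : ℤ × ℤ) : ℤ × ℤ := (g.1 + g.2 * h.1, g.2 * h.2)

/-- the hypotheses of the question -/
def Adm (g : ℤ × ℤ) : Prop := 1 ≤ g.2 ∧ Int.gcd g.1 g.2 = 1 ∧ 2 ∣ g.1 * g.2

/-- the conclusion -/
def Concl (Z : Set (ℤ × ℤ)) : Prop :=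
  ∃ E : ℕ, (E = 1 ∨ E = 2 ∨ E = 3) ∧ ∃ χ : ℤ × ℤ → ZMod E,
    (∀ g ∈ Z, ∀ h ∈ Z, χ (cp g h) = χ g + χ h) ∧
    (∀ e, ∃ g ∈ Z, χ g = e) ∧
    (∀ h ∈ Z, χ h = 0 → ∀ w ∈ Z, ∃ g₁ ∈ Z, ∃ g₂ ∈ Z, ∃ g₃ ∈ Z,
      Good (cp w g₁) ∧ Good (cp w g₂) ∧ Good (cp w g₃) ∧
        cp h (cp w g₃) = cp (cp w g₁) (cp w g₂)) ∧
    (∀ h ∈ Z, ∀ w ∈ Z, ∃ g₁ ∈ Z, ∃ g₂ ∈ Z, ∃ g₃ ∈ Z,
      Good (cp w g₁) ∧ Good (cp w g₂) ∧ Good (cp w g₃) ∧
        cp ((cp h)^[E] (0, 1)) (cp w g₃) = cp (cp w g₁) (cp w g₂)) ∧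
    (E ≠ 1 → ∀ F : Finset (ℤ × ℤ), (∀ h ∈ F, h ∈ Z ∧ χ h = 0) → ∀ w ∈ Z,
      ∃ z ∈ Z, ∀ h ∈ F, Good (cp (cp w z) h))

/-- the submonoid of maps -/
def subm (Z : Set (ℤ × ℤ)) (hcl : ∀ g ∈ Z, ∀ h ∈ Z, cp g h ∈ Z) : Submonoid Aff where
  carrier := {g | g = 1 ∨ (g.a, g.d) ∈ Z}
  one_mem' := Or.inl rfl
  mul_mem' := by
    rintro g k (rfl | hg) (rfl | hk)
    · exact Or.inl (one_mul 1)
    · exact Or.inr (by rw [one_mul]; exact hk)
    · exact Or.inr (by rw [mul_one]; exact hg)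
    · exact Or.inr (hcl _ hg _ hk)

theorem mem_subm {Z : Set (ℤ × ℤ)} {hcl : ∀ g ∈ Z, ∀ h ∈ Z, cp g h ∈ Z} {g : Aff} :
    g ∈ subm Z hcl ↔ g = 1 ∨ (g.a, g.d) ∈ Z := Iff.rfl

theorem sys (Z : Set (ℤ × ℤ)) (hZ : ∀ g ∈ Z, Adm g ∧ (3 ∣ g.2 - 1 → 3 ∣ g.1))
    (hcomm : ∀ g ∈ Z, ∀ h ∈ Z, cp g h = cp h g) (hcl : ∀ g ∈ Z, ∀ h ∈ Z, cp g h ∈ Z)
    (hne : ∃ g ∈ Z, g ≠ (0, 1)) : Sys (subm Z hcl) where
  comm := by
    intro g hg k hk
    rw [mem_subm] at hg hk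
    rcases hg with rfl | hg
    · rw [one_mul, mul_one]
    rcases hk with rfl | hk
    · rw [one_mul, mul_one]
    have h1 := hcomm _ hg _ hk
    exact Aff.ext (congrArg Prod.fst h1) (congrArg Prod.snd h1)
  pos := by
    intro g hg
    rcases mem_subm.1 hg with rfl | hg
    · exact le_refl _
    · exact (hZ _ hg).1.1
  cop := by
    intro g hg
    rcases mem_subm.1 hg with rfl | hg
    · exact isCoprime_one_right
    · exact Int.isCoprime_iff_gcd_eq_one.2 (hZ _ hg).1.2.1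
  two := by
    intro g hg
    rcases mem_subm.1 hg with rfl | hg
    · exact ⟨0, rfl⟩
    · exact (hZ _ hg).1.2.2
  three := by
    intro g hg h3
    rcases mem_subm.1 hg with rfl | hg
    · exact ⟨0, rfl⟩
    · exact (hZ _ hg).2 h3
  ne := by
    obtain ⟨g, hg, hg1⟩ := hne
    refine ⟨⟨g.1, g.2⟩, Or.inr hg, fun he => hg1 ?_⟩
    exact Prod.ext (congrArg Aff.a he) (congrArg Aff.d he)

theorem concl (Z : Set (ℤ × ℤ)) (hZ : ∀ g ∈ Z, Adm g ∧ (3 ∣ g.2 - 1 → 3 ∣ g.1))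
    (hcomm : ∀ g ∈ Z, ∀ h ∈ Z, cp g h = cp h g) (hcl : ∀ g ∈ Z, ∀ h ∈ Z, cp g h ∈ Z)
    (hne : ∃ g ∈ Z, g ≠ (0, 1)) : Concl Z := by
  classical
  have hS := sys Z hZ hcomm hcl hne
  obtain ⟨E, hE, χ', h1, h2, h3, h4⟩ := main hS
  -- embedding of `Z`
  have hmem : ∀ g : ℤ × ℤ, g ∈ Z → (⟨g.1, g.2⟩ : Aff) ∈ subm Z hcl := fun g hg => Or.inr hg
  let em : ∀ g : ℤ × ℤ, g ∈ Z → MM hS := fun g hg => ⟨⟨g.1, g.2⟩, hmem g hg⟩
  -- the pair of an element
  let pr : MM hS → ℤ × ℤ := fun g => (g.1.a, g.1.d)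
  have pr_memZ : ∀ (g : MM hS) (w : ℤ × ℤ) (hw : w ∈ Z), pr (em w hw * g) ∈ Z := by
    intro g w hw
    rcases mem_subm.1 g.2 with hg | hg
    · have h5 : g = 1 := MM.ext' hS hg
      rw [h5, mul_one]; exact hw
    · exact hcl _ hw _ hg
  obtain ⟨χ, hχ⟩ : ∃ χ : ℤ × ℤ → ZMod E, χ = fun g => if hg : g ∈ Z then χ' (em g hg) else 0 := ⟨_, rfl⟩
  have hχe : ∀ g (hg : g ∈ Z), χ g = χ' (em g hg) := by
    intro g hg
    rw [hχ]
    simp only [dif_pos hg]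
  have hχpr : ∀ y, pr y ∈ Z → χ (pr y) = χ' y := fun y hy => hχe _ hy
  have hE0 : ∀ y : ZMod E, (E : ZMod E) * y = 0 := by
    intro y; rw [ZMod.natCast_self, zero_mul]
  have hχ1 : χ' 1 = 0 := by
    have h5 := h1 1 1
    rw [mul_one] at h5
    exact left_eq_add.1 h5
  have hχp : ∀ (g : MM hS) (n : ℕ), χ' (g ^ n) = n * χ' g := by
    intro g n
    induction n with
    | zero => rw [pow_zero, hχ1, Nat.cast_zero, zero_mul]
    | succ n ih => rw [pow_succ, h1, ih]; push_cast; ring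
  -- triples
  have htri : ∀ x : MM hS, χ' x = 0 → ∀ w ∈ Z, ∃ g₁ ∈ Z, ∃ g₂ ∈ Z, ∃ g₃ ∈ Z,
      Good (cp w g₁) ∧ Good (cp w g₂) ∧ Good (cp w g₃) ∧
        cp (pr x) (cp w g₃) = cp (cp w g₁) (cp w g₂) := by
    intro x hx w hw
    obtain ⟨z₁, z₂, z₃, k1, k2, k3, k4⟩ := h3 x hx (em w hw * em w hw)
    rw [mul_assoc] at k1 k2 k3
    have k5 : x * (em w hw * (em w hw * z₃)) =
        (em w hw * (em w hw * z₁)) * (em w hw * (em w hw * z₂)) := by
      simpa only [mul_assoc] using k4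
    exact ⟨pr (em w hw * z₁), pr_memZ _ _ hw, pr (em w hw * z₂), pr_memZ _ _ hw,
      pr (em w hw * z₃), pr_memZ _ _ hw, k1, k2, k3, congrArg pr k5⟩
  refine ⟨E, hE, χ, ?_, ?_, ?_, ?_, ?_⟩
  · intro g hg k hk
    have h5 := h1 (em g hg) (em k hk)
    rw [hχe g hg, hχe k hk, ← h5]
    exact hχe _ (hcl g hg k hk)
  · intro e
    obtain ⟨g, hg⟩ := h2 e
    obtain ⟨g₀, hg₀, -⟩ := hne
    obtain ⟨n, hn⟩ : ∃ n, E = n + 1 := ⟨E - 1, by omega⟩
    refine ⟨pr (em g₀ hg₀ * ((em g₀ hg₀) ^ n * g)), pr_memZ _ _ hg₀, ?_⟩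
    rw [hχpr _ (pr_memZ _ _ hg₀), ← mul_assoc, ← pow_succ', h1, hχp, hg]
    have h5 := hE0 (χ' (em g₀ hg₀))
    rw [show ((n + 1 : ℕ) : ZMod E) = ((E : ℕ) : ZMod E) by rw [hn], h5, zero_add]
  · intro k hk hk0 w hw
    rw [hχe k hk] at hk0
    exact htri (em k hk) hk0 w hw
  · intro k hk w hw
    have h5 := htri ((em k hk) ^ E) (by rw [hχp, hE0]) w hw
    have h6 : ∀ n : ℕ, pr ((em k hk) ^ n) = (cp k)^[n] (0, 1) := by
      intro n
      induction n with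
      | zero => rfl
      | succ n ih =>
        rw [pow_succ', Function.iterate_succ_apply', ← ih]
        rfl
    rw [← h6]
    exact h5
  · intro hE1 F hF w hw
    obtain ⟨z, hz⟩ := h4 hE1 (F.attach.image (fun g => em g.1 (hF g.1 g.2).1)) (by
      intro x hx
      obtain ⟨g, -, rfl⟩ := mem_image.1 hx
      exact (hχe _ (hF g.1 g.2).1).symm.trans (hF g.1 g.2).2) (em w hw * em w hw)
    refine ⟨pr (em w hw * z), pr_memZ _ _ hw, fun k hk => ?_⟩
    have h5 := hz (em k (hF k hk).1) (mem_image.2 ⟨⟨k, hk⟩, mem_attach _ _, rfl⟩)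
    rw [mul_assoc (em w hw)] at h5
    exact h5

/-- the set of the maps which commute with `f` -/
def Zf (f : ℤ × ℤ) : Set (ℤ × ℤ) := {g | Adm g ∧ (3 ∣ g.2 - 1 → 3 ∣ g.1) ∧ cp f g = cp g f}

theorem gcd_aux {a d a' d' : ℤ} (h1 : Int.gcd a d = 1) (h2 : Int.gcd a' d' = 1)
    (hc : a + d * a' = a' + d' * a) : Int.gcd (a + d * a') (d * d') = 1 := by
  by_contra hne
  obtain ⟨p, hp, hpd⟩ := Nat.exists_prime_and_dvd hne
  have hpz : Prime (p : ℤ) := Nat.prime_iff_prime_int.1 hp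
  have h3 : (p : ℤ) ∣ a + d * a' := (Int.natCast_dvd_natCast.2 hpd).trans (Int.gcd_dvd_left _ _)
  have h4 : (p : ℤ) ∣ d * d' := (Int.natCast_dvd_natCast.2 hpd).trans (Int.gcd_dvd_right _ _)
  have key : ∀ x y : ℤ, Int.gcd x y = 1 → (p : ℤ) ∣ x → (p : ℤ) ∣ y → False := by
    intro x y hxy hx hy
    have h5 := Int.dvd_gcd hx hy
    rw [hxy] at h5
    have h6 : p ∣ 1 := by exact_mod_cast h5
    exact hp.one_lt.ne' (Nat.dvd_one.1 h6)
  rcases hpz.dvd_or_dvd h4 with h5 | h5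
  · exact key a d h1 ((Int.dvd_add_left (h5.mul_right _)).1 h3) h5
  · rw [hc] at h3
    exact key a' d' h2 ((Int.dvd_add_left (h5.mul_right _)).1 h3) h5

theorem concl_f (f : ℤ × ℤ) (hf : Adm f) (hf1 : f ≠ (0, 1)) : Concl (Zf f) := by
  obtain ⟨a, d⟩ := f
  obtain ⟨hd, hg, h2⟩ := hf
  simp only at hd hg h2
  have ha : a ≠ 0 := by
    rintro rfl
    rw [Int.gcd_zero_left] at hg
    apply hf1
    have : d = 1 := by omega
    rw [this]
  -- commuting with `f`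
  have hcf : ∀ g ∈ Zf (a, d), g.1 * (d - 1) = a * (g.2 - 1) := by
    rintro ⟨a', d'⟩ ⟨-, -, h3⟩
    have h4 : a + d * a' = a' + d' * a := congrArg Prod.fst h3
    simp only
    linear_combination h4
  have hcomm : ∀ g ∈ Zf (a, d), ∀ k ∈ Zf (a, d), cp g k = cp k g := by
    intro g hg k hk
    have e1 := hcf g hg
    have e2 := hcf k hk
    have e3 : g.1 + g.2 * k.1 = k.1 + k.2 * g.1 := by
      by_cases hd1 : d = 1
      · rw [hd1, sub_self, mul_zero] at e1 e2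
        have e4 : g.2 - 1 = 0 := (mul_eq_zero.1 e1.symm).resolve_left ha
        have e5 : k.2 - 1 = 0 := (mul_eq_zero.1 e2.symm).resolve_left ha
        have e6 : g.2 = 1 := by omega
        have e7 : k.2 = 1 := by omega
        rw [e6, e7]; ring
      · have e4 : (d - 1) ≠ 0 := by omega
        apply mul_right_cancel₀ e4
        linear_combination (1 - k.2) * e1 - (1 - g.2) * e2
    exact Prod.ext e3 (mul_comm _ _)
  have hcl : ∀ g ∈ Zf (a, d), ∀ k ∈ Zf (a, d), cp g k ∈ Zf (a, d) := by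
    intro g hg k hk
    have hgk := hcomm g hg k hk
    have hgk1 : g.1 + g.2 * k.1 = k.1 + k.2 * g.1 := congrArg Prod.fst hgk
    obtain ⟨⟨g1, g2, g3⟩, g4, g5⟩ := hg
    obtain ⟨⟨k1, k2, k3⟩, k4, k5⟩ := hk
    refine ⟨⟨?_, ?_, ?_⟩, ?_, ?_⟩
    · show 1 ≤ g.2 * k.2
      nlinarith
    · exact gcd_aux g2 k2 hgk1
    · show 2 ∣ (g.1 + g.2 * k.1) * (g.2 * k.2)
      rcases (Int.prime_two.dvd_mul).1 g3 with h3 | h3
      · rcases (Int.prime_two.dvd_mul).1 k3 with h4 | h4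
        · exact Dvd.dvd.mul_right (dvd_add h3 (h4.mul_left _)) _
        · exact Dvd.dvd.mul_left (h4.mul_left _) _
      · exact Dvd.dvd.mul_left (h3.mul_right _) _
    · show 3 ∣ g.2 * k.2 - 1 → 3 ∣ g.1 + g.2 * k.1
      intro h3
      obtain ⟨u, hu⟩ : ∃ u, g.2 = 3 * u + g.2 % 3 := ⟨g.2 / 3, by omega⟩
      obtain ⟨v, hv⟩ : ∃ v, k.2 = 3 * v + k.2 % 3 := ⟨k.2 / 3, by omega⟩
      have hg3 : g.2 % 3 = 0 ∨ g.2 % 3 = 1 ∨ g.2 % 3 = 2 := by omega
      have hk3 : k.2 % 3 = 0 ∨ k.2 % 3 = 1 ∨ k.2 % 3 = 2 := by omega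
      rcases hg3 with hg3 | hg3 | hg3 <;> rcases hk3 with hk3 | hk3 | hk3 <;>
        rw [hg3] at hu <;> rw [hk3] at hv <;> rw [hu, hv] at h3
      · exfalso
        have : (3 * u + 0) * (3 * v + 0) = 3 * (u * (3 * v)) := by ring
        rw [this] at h3; omega
      · exfalso
        have : (3 * u + 0) * (3 * v + 1) = 3 * (u * (3 * v + 1)) := by ring
        rw [this] at h3; omega
      · exfalso
        have : (3 * u + 0) * (3 * v + 2) = 3 * (u * (3 * v + 2)) := by ring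
        rw [this] at h3; omega
      · exfalso
        have : (3 * u + 1) * (3 * v + 0) = 3 * (v * (3 * u + 1)) := by ring
        rw [this] at h3; omega
      · have g6 := g4 (by omega)
        have k6 := k4 (by omega)
        exact dvd_add g6 (k6.mul_left _)
      · exfalso
        have : (3 * u + 1) * (3 * v + 2) = 3 * (u * (3 * v + 2) + v) + 2 := by ring
        rw [this] at h3; omega
      · exfalso
        have : (3 * u + 2) * (3 * v + 0) = 3 * (v * (3 * u + 2)) := by ring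
        rw [this] at h3; omega
      · exfalso
        have : (3 * u + 2) * (3 * v + 1) = 3 * (v * (3 * u + 2) + u) + 2 := by ring
        rw [this] at h3; omega
      · rw [hu, hv] at hgk1
        have e1 : g.1 + g.2 * k.1 = g.1 + 2 * k.1 + 3 * (u * k.1) := by
          rw [hu]; ring
        have e2 : g.1 - k.1 = 3 * (u * k.1 - v * g.1) := by linear_combination -hgk1
        rw [e1]
        omega
    · show cp (a, d) (cp g k) = cp (cp g k) (a, d)
      have e1 : a + d * g.1 = g.1 + g.2 * a := congrArg Prod.fst g5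
      have e2 : a + d * k.1 = k.1 + k.2 * a := congrArg Prod.fst k5
      refine Prod.ext ?_ ?_
      · show a + d * (g.1 + g.2 * k.1) = g.1 + g.2 * k.1 + g.2 * k.2 * a
        linear_combination e1 + g.2 * e2
      · show d * (g.2 * k.2) = g.2 * k.2 * d
        ring
  -- the third iterate of `f`
  have hne : ∃ g ∈ Zf (a, d), g ≠ (0, 1) := by
    have hff : Int.gcd (a + d * a) (d * d) = 1 := gcd_aux hg hg rfl
    have hfff : Int.gcd (a + d * (a + d * a)) (d * (d * d)) = 1 := gcd_aux hg hff (by ring)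
    refine ⟨(a + d * (a + d * a), d * (d * d)), ⟨⟨?_, hfff, ?_⟩, ?_, ?_⟩, ?_⟩
    · show 1 ≤ d * (d * d)
      have : 1 ≤ d * d := by nlinarith
      nlinarith
    · show 2 ∣ (a + d * (a + d * a)) * (d * (d * d))
      have e : (a + d * (a + d * a)) * (d * (d * d)) = (a * d) * (d * d * (1 + d + d * d)) := by ring
      rw [e]
      exact h2.mul_right _
    · show 3 ∣ d * (d * d) - 1 → 3 ∣ a + d * (a + d * a)
      intro h3
      obtain ⟨u, hu⟩ : ∃ u, d = 3 * u + d % 3 := ⟨d / 3, by omega⟩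
      have hd3 : d % 3 = 0 ∨ d % 3 = 1 ∨ d % 3 = 2 := by omega
      rcases hd3 with hd3 | hd3 | hd3 <;> rw [hd3] at hu
      · exfalso
        rw [hu] at h3
        have : (3 * u + 0) * ((3 * u + 0) * (3 * u + 0)) = 3 * (9 * (u * u * u)) := by ring
        rw [this] at h3; omega
      · rw [hu]
        exact ⟨a * (1 + 3 * u + 3 * (u * u)), by ring⟩
      · exfalso
        rw [hu] at h3
        have : (3 * u + 2) * ((3 * u + 2) * (3 * u + 2)) =
          3 * (9 * (u * u * u) + 18 * (u * u) + 12 * u + 2) + 2 := by ring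
        rw [this] at h3; omega
    · refine Prod.ext ?_ ?_
      · show a + d * (a + d * (a + d * a)) = a + d * (a + d * a) + d * (d * d) * a
        ring
      · show d * (d * (d * d)) = d * (d * d) * d
        ring
    · intro he
      have e1 : a + d * (a + d * a) = 0 := congrArg Prod.fst he
      have e2 : a * (1 + d + d * d) = 0 := by linear_combination e1
      rcases mul_eq_zero.1 e2 with e3 | e3
      · exact ha e3
      · nlinarith
  exact concl _ (fun g hg => ⟨hg.1, hg.2.1⟩) hcomm hcl hne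

end Pool.Agent.H40E9.CM
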